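import Pool.Agent.U41.PH.Stm0

/-!
Project PH, package C2: zeros of a polynomial in several variables modulo `p`, counted in a box.
-/

set_option autoImplicit false

namespace Pool.Agent.U41.PH

open MvPolynomial

theorem C2_card_Icc (H : ℕ) : (Finset.Icc (-(H : ℤ)) H).card = 2 * H + 1 := by
  rw [Int.card_Icc]; omega

theorem C2_card_box (k H : ℕ) : (box k H).card = (2 * H + 1) ^ k := by
  unfold box
  rw [Fintype.card_piFinset]
  simp only [C2_card_Icc]
  simp

theorem C2_pt_cons {k : ℕ} (M : ℕ) (a : Fin (k + 1) → ℤ) (t : ℤ) (x : Fin k → ℤ) :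
    pt M a (Fin.cons t x) = Fin.cons (a 0 + M * t) (pt M (Fin.tail a) x) := by
  ext i
  refine Fin.cases ?_ (fun j => ?_) i
  · simp [pt]
  · simp [pt, Fin.tail]

theorem C2_cnt_eq (k H : ℕ) (Q : (Fin k → ℤ) → Prop) [DecidablePred Q] :
    cnt k H Q = ((box k H).filter Q).card := by
  unfold cnt
  congr

theorem C2_cnt_succ (k H : ℕ) (Q : (Fin (k + 1) → ℤ) → Prop) [DecidablePred Q]
    [∀ x : Fin k → ℤ, DecidablePred fun t : ℤ => Q (Fin.cons t x)] :
    cnt (k + 1) H Q ≤ ∑ x ∈ box k H,
      ((Finset.Icc (-(H : ℤ)) H).filter fun t => Q (Fin.cons t x)).card := by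
  rw [C2_cnt_eq]
  rw [Finset.card_eq_sum_card_fiberwise (f := fun x : Fin (k + 1) → ℤ => (Fin.tail x : Fin k → ℤ))
    (t := box k H)]
  · refine Finset.sum_le_sum fun x hx => ?_
    refine Finset.card_le_card_of_injOn (fun y => y 0) ?_ ?_
    · intro y hy
      have hy' := Finset.mem_filter.1 (Finset.mem_coe.1 hy)
      have hy2 := Finset.mem_filter.1 hy'.1
      have h0 : y = Fin.cons (y 0) x := by
        rw [← hy'.2]; exact (Fin.cons_self_tail y).symm
      refine Finset.mem_coe.2 (Finset.mem_filter.2 ⟨?_, ?_⟩)
      · exact (Fintype.mem_piFinset.1 hy2.1) 0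
      · rw [← h0]; exact hy2.2
    · intro y hy z hz hyz
      have hy' := (Finset.mem_filter.1 (Finset.mem_coe.1 hy)).2
      have hz' := (Finset.mem_filter.1 (Finset.mem_coe.1 hz)).2
      rw [← Fin.cons_self_tail y, ← Fin.cons_self_tail z]
      have e1 : Fin.tail y = Fin.tail z := hy'.trans hz'.symm
      have e2 : y 0 = z 0 := hyz
      rw [e1, e2]
  · intro y hy
    have hy' := Finset.mem_filter.1 (Finset.mem_coe.1 hy)
    refine Finset.mem_coe.2 (Fintype.mem_piFinset.2 fun i => ?_)
    exact (Fintype.mem_piFinset.1 hy'.1) i.succ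

theorem C2_ok (h1 : S_C1) : S_C2 := by
  classical
  intro k
  induction k with
  | zero =>
    intro f p M a H hp hM hm
    obtain ⟨m, hm⟩ := hm
    have h0 : cnt 0 H (fun x => (p : ℤ) ∣ eval (pt M a x) f) = 0 := by
      rw [C2_cnt_eq, Finset.card_eq_zero, Finset.filter_eq_empty_iff]
      intro x _ hx
      rw [eq_C_of_isEmpty f, eval_C] at hx
      have : m = 0 := Subsingleton.elim _ _
      rw [this] at hm
      exact hm hx
    rw [h0, Nat.cast_zero]
    positivity
  | succ k ih =>
    intro f p M a H hp hM hm
    obtain ⟨m, hm⟩ := hm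
    have hpR : (0 : ℝ) < p := by exact_mod_cast hp.pos
    set φ := finSuccEquiv ℤ k f with hφ
    -- the largest index
    set S := (Finset.range (φ.natDegree + 1)).filter
      fun i => ∃ m', ¬ (p : ℤ) ∣ coeff m' (φ.coeff i) with hS
    have hne : S.Nonempty := by
      refine ⟨m 0, Finset.mem_filter.2 ⟨?_, Finsupp.tail m, ?_⟩⟩
      · rw [Finset.mem_range, Nat.lt_succ_iff]
        refine Polynomial.le_natDegree_of_ne_zero fun h => ?_
        apply hm
        have h2 : coeff (Finsupp.tail m) (φ.coeff (m 0)) = coeff m f := by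
          rw [hφ, finSuccEquiv_coeff_coeff, Finsupp.cons_tail]
        rw [← h2, h]
        simp
      · rw [hφ, finSuccEquiv_coeff_coeff, Finsupp.cons_tail]
        exact hm
    obtain ⟨e, heS, hmax⟩ := S.exists_max_image id hne
    obtain ⟨m', hm'⟩ := (Finset.mem_filter.1 heS).2
    have hbig : ∀ i, e < i → ∀ m'', (p : ℤ) ∣ coeff m'' (φ.coeff i) := by
      intro i hi m''
      by_contra hcon
      have hiS : i ∈ S := by
        refine Finset.mem_filter.2 ⟨?_, m'', hcon⟩
        rw [Finset.mem_range, Nat.lt_succ_iff]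
        refine Polynomial.le_natDegree_of_ne_zero fun h => ?_
        apply hcon
        rw [h]
        simp
      exact absurd (hmax i hiS) (not_le.2 hi)
    have hfe0 : φ.coeff e ≠ 0 := by
      intro h
      apply hm'
      rw [h]
      simp
    have hdeg : (φ.coeff e).totalDegree + e ≤ f.totalDegree :=
      totalDegree_coeff_finSuccEquiv_add_le f e hfe0
    -- divisibility of the values of the high coefficients
    have hval : ∀ (g : MvPolynomial (Fin k) ℤ) (y : Fin k → ℤ),
        (∀ m'', (p : ℤ) ∣ coeff m'' g) → (p : ℤ) ∣ eval y g := by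
      intro g y hg
      rw [eval_eq]
      exact Finset.dvd_sum fun i _ => (hg i).mul_right _
    -- the fibres
    set L : ℝ := 2 * (H : ℝ) + 1 with hL
    have hL1 : 1 ≤ L := by rw [hL]; have : (0 : ℝ) ≤ H := by positivity
                           linarith
    set A : ℝ := L / p + 1 with hA
    have hA0 : 0 ≤ A := by rw [hA]; positivity
    set Q : (Fin k → ℤ) → Prop := fun x => (p : ℤ) ∣ eval (pt M (Fin.tail a) x) (φ.coeff e) with hQ
    have hfib : ∀ x : Fin k → ℤ,
        ((((Finset.Icc (-(H : ℤ)) H).filter fun t =>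
          (p : ℤ) ∣ eval (pt M a (Fin.cons t x)) f).card : ℕ) : ℝ) ≤
          (if Q x then L else 0) + e * A := by
      intro x
      have heA : 0 ≤ (e : ℝ) * A := by positivity
      split_ifs with hx
      · have h2 : ((Finset.Icc (-(H : ℤ)) H).filter fun t =>
          (p : ℤ) ∣ eval (pt M a (Fin.cons t x)) f).card ≤ 2 * H + 1 := by
          rw [← C2_card_Icc]; exact Finset.card_filter_le _ _
        have h3 : ((((Finset.Icc (-(H : ℤ)) H).filter fun t =>
          (p : ℤ) ∣ eval (pt M a (Fin.cons t x)) f).card : ℕ) : ℝ) ≤ L := by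
          rw [hL]; exact_mod_cast h2
        linarith
      · rw [zero_add]
        set ev := eval (pt M (Fin.tail a) x) with hev
        let g : Polynomial ℤ := ∑ i ∈ Finset.range (e + 1),
          Polynomial.C (ev (φ.coeff i)) * Polynomial.X ^ i
        have hgc : g.coeff e = ev (φ.coeff e) := by
          simp only [g, Polynomial.finsetSum_coeff, Polynomial.coeff_C_mul_X_pow]
          rw [Finset.sum_eq_single e]
          · simp
          · intro i _ hi
            rw [if_neg (fun h => hi h.symm)]
          · intro h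
            exact absurd (Finset.mem_range.2 (Nat.lt_succ_self e)) h
        have hgd : g.natDegree ≤ e := by
          refine Polynomial.natDegree_sum_le_of_forall_le _ _ fun i hi => ?_
          refine (Polynomial.natDegree_C_mul_X_pow_le _ _).trans ?_
          exact Nat.lt_succ_iff.1 (Finset.mem_range.1 hi)
        have hgev : ∀ y : ℤ, (p : ℤ) ∣ (Polynomial.map ev φ).eval y - g.eval y := by
          intro y
          have hN : (Polynomial.map ev φ).natDegree < max (φ.natDegree + 1) (e + 1) :=
            lt_of_le_of_lt (Polynomial.natDegree_map_le) (by omega)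
          rw [Polynomial.eval_eq_sum_range' hN]
          have hg2 : g.eval y = ∑ i ∈ Finset.range (max (φ.natDegree + 1) (e + 1)),
              (if i < e + 1 then ev (φ.coeff i) * y ^ i else 0) := by
            simp only [g, Polynomial.eval_finsetSum, Polynomial.eval_mul, Polynomial.eval_C,
              Polynomial.eval_pow, Polynomial.eval_X]
            rw [← Finset.sum_filter]
            refine Finset.sum_congr ?_ fun _ _ => rfl
            ext i
            simp only [Finset.mem_range, Finset.mem_filter]
            constructor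
            · intro h; exact ⟨lt_of_lt_of_le h (le_max_right _ _), h⟩
            · intro h; exact h.2
          rw [hg2, ← Finset.sum_sub_distrib]
          refine Finset.dvd_sum fun i _ => ?_
          rw [Polynomial.coeff_map]
          split_ifs with hi
          · simp
          · rw [sub_zero]
            refine Dvd.dvd.mul_right ?_ _
            exact hval _ _ (hbig i (by omega))
        have hc1 := h1 g p M (a 0) H hp hM ⟨e, by rw [hgc]; exact hx⟩
        have h2 : ((Finset.Icc (-(H : ℤ)) H).filter fun t =>
          (p : ℤ) ∣ eval (pt M a (Fin.cons t x)) f).card ≤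
            ((Finset.Icc (-(H : ℤ)) H).filter fun t => (p : ℤ) ∣ g.eval (a 0 + M * t)).card := by
          refine Finset.card_le_card fun t ht => ?_
          obtain ⟨ht1, ht2⟩ := Finset.mem_filter.1 ht
          refine Finset.mem_filter.2 ⟨ht1, ?_⟩
          rw [C2_pt_cons, eval_eq_eval_mv_eval'] at ht2
          have h3 := hgev (a 0 + M * t)
          have h4 : (p : ℤ) ∣ (Polynomial.map ev φ).eval (a 0 + M * t) := ht2
          have h5 := dvd_sub h4 h3
          rwa [sub_sub_cancel] at h5
        calc ((((Finset.Icc (-(H : ℤ)) H).filter fun t =>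
              (p : ℤ) ∣ eval (pt M a (Fin.cons t x)) f).card : ℕ) : ℝ)
            ≤ ((((Finset.Icc (-(H : ℤ)) H).filter fun t =>
              (p : ℤ) ∣ g.eval (a 0 + M * t)).card : ℕ) : ℝ) := by exact_mod_cast h2
          _ ≤ g.natDegree * A := hc1
          _ ≤ e * A := by
              refine mul_le_mul_of_nonneg_right ?_ hA0
              exact_mod_cast hgd
    have hsum : (cnt (k + 1) H (fun x => (p : ℤ) ∣ eval (pt M a x) f) : ℝ) ≤
        (cnt k H Q : ℝ) * L + L ^ k * (e * A) := by
      have h2 := C2_cnt_succ k H (fun x => (p : ℤ) ∣ eval (pt M a x) f)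
      have h3 : (cnt (k + 1) H (fun x => (p : ℤ) ∣ eval (pt M a x) f) : ℝ) ≤
          ∑ x ∈ box k H, ((((Finset.Icc (-(H : ℤ)) H).filter fun t =>
            (p : ℤ) ∣ eval (pt M a (Fin.cons t x)) f).card : ℕ) : ℝ) := by
        rw [← Nat.cast_sum]
        exact_mod_cast h2
      refine h3.trans ((Finset.sum_le_sum fun x _ => hfib x).trans (le_of_eq ?_))
      rw [Finset.sum_add_distrib, Finset.sum_const, C2_card_box, ← Finset.sum_filter,
        Finset.sum_const]
      rw [C2_cnt_eq, nsmul_eq_mul, nsmul_eq_mul, hL]
      push_cast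
      rfl
    have hih := ih (φ.coeff e) p M (Fin.tail a) H hp hM ⟨m', hm'⟩
    have hcase : (cnt k H Q : ℝ) * L ≤ (φ.coeff e).totalDegree * L ^ k * A := by
      have h2 : (cnt k H Q : ℝ) * L ≤ ((φ.coeff e).totalDegree * L ^ (k - 1) * A) * L :=
        mul_le_mul_of_nonneg_right hih (by linarith)
      refine h2.trans ?_
      cases k with
      | zero =>
        have : (φ.coeff e).totalDegree = 0 := by
          rw [eq_C_of_isEmpty (φ.coeff e)]
          exact totalDegree_C _
        rw [this]
        simp
      | succ k =>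
        rw [Nat.add_sub_cancel]
        refine le_of_eq ?_
        ring
    refine hsum.trans ?_
    rw [Nat.add_sub_cancel]
    have h5 : ((φ.coeff e).totalDegree : ℝ) + e ≤ f.totalDegree := by exact_mod_cast hdeg
    have h6 : 0 ≤ L ^ k * A := by positivity
    calc (cnt k H Q : ℝ) * L + L ^ k * (e * A)
        ≤ (φ.coeff e).totalDegree * L ^ k * A + L ^ k * (e * A) := by linarith
      _ = ((φ.coeff e).totalDegree + e) * (L ^ k * A) := by ring
      _ ≤ f.totalDegree * (L ^ k * A) := mul_le_mul_of_nonneg_right h5 h6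
      _ = f.totalDegree * L ^ k * A := by ring

end Pool.Agent.U41.PH
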